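import Pool.Agent.Y106.C2.Main

/-!
# Bodies with an algebraic power of the sectional volume: boundary of class `C²`

If `K ⊂ ℝⁿ`, `n ≥ 2`, is a body with boundary of class `C²` and for every direction `ξ` some power
`A_K(ξ,t)^m`, with exponents `m = m(ξ)` bounded in `ξ`, of its sectional volume function is a
polynomial in `t`, then `∂K` is an ellipsoid.
-/

set_option autoImplicit false
open Set Metric MeasureTheory Polynomial
open scoped ContDiff RealInnerProductSpace

namespace Pool.Agent.Results.MP_376fb4_gt.ClassC2Boundary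

/-- Euclidean space `ℝⁿ`. -/
abbrev E (n : ℕ) : Type := EuclideanSpace ℝ (Fin n)

/-- The boundary of `K` is a `C²` hypersurface near `x`: in an open neighbourhood of `x` it is the
zero set of a `C²` function whose derivative at `x` is not zero. -/
def BoundaryC2At {n : ℕ} (K : Set (E n)) (x : E n) : Prop :=
  ∃ U : Set (E n), IsOpen U ∧ x ∈ U ∧ ∃ f : E n → ℝ,
    ContDiffOn ℝ 2 f U ∧ fderiv ℝ f x ≠ 0 ∧ frontier K ∩ U = {y ∈ U | f y = 0}

/-- `K ⊂ ℝⁿ` is a body with `C²` boundary: a nonempty compact set which is the closure of its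
interior and whose topological boundary is a `C²` hypersurface. -/
def BodyC2 {n : ℕ} (K : Set (E n)) : Prop :=
  IsCompact K ∧ K.Nonempty ∧ closure (interior K) = K ∧ ∀ x ∈ frontier K, BoundaryC2At K x

/-- The orthogonal complement `ξ^⊥` of the line through `ξ`. -/
noncomputable def perp {n : ℕ} (ξ : E n) : Submodule ℝ (E n) := (ℝ ∙ ξ)ᗮ

/-- Volume (Lebesgue measure, as a real number) of a set in a finite-dimensional Euclidean space. -/
noncomputable def vol {F : Type} [NormedAddCommGroup F] [InnerProductSpace ℝ F]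
    [FiniteDimensional ℝ F] [MeasurableSpace F] [BorelSpace F] (S : Set F) : ℝ :=
  (volume S).toReal

/-- The section of `K` by the hyperplane `⟨x,ξ⟩ = t` (`ξ` a unit vector); the hyperplane is
identified isometrically with the orthogonal complement of `ξ` by `y ↦ t ξ + y`. -/
def hyperplaneSection {n : ℕ} (K : Set (E n)) (ξ : E n) (t : ℝ) : Set (perp ξ) :=
  {y | t • ξ + (y : E n) ∈ K}

/-- The sectional volume function `A_K(ξ,t)`, the `(n-1)`-dimensional volume of the section. -/
noncomputable def sectionVolume {n : ℕ} (K : Set (E n)) (ξ : E n) (t : ℝ) : ℝ :=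
  vol (hyperplaneSection K ξ t)

/-- `A_K(ξ,t)^m` is a polynomial in `t` on the set of all `t` for which the hyperplane
`⟨x,ξ⟩ = t` meets the interior of `K`. -/
def PowerIsPolynomial {n : ℕ} (K : Set (E n)) (m : ℕ) (ξ : E n) : Prop :=
  ∃ P : ℝ[X], ∀ t : ℝ, (∃ x ∈ interior K, ⟪x, ξ⟫ = t) → sectionVolume K ξ t ^ m = P.eval t

/-- The solid ellipsoid with centre `c` given by the invertible linear map `L`. -/
def solidEllipsoid {n : ℕ} (c : E n) (L : E n ≃L[ℝ] E n) : Set (E n) := {x | ‖L (x - c)‖ ≤ 1}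

/-- The ellipsoid (surface) with centre `c` given by the invertible linear map `L`. -/
def ellipsoid {n : ℕ} (c : E n) (L : E n ≃L[ℝ] E n) : Set (E n) := {x | ‖L (x - c)‖ = 1}

/-- **If the boundary of `K` is of class `C²` and for every unit vector `ξ` the power
`A_K(ξ,·)^m(ξ)`, with `1 ≤ m(ξ) ≤ M`, is a polynomial, then `K` is a solid ellipsoid and `∂K` an
ellipsoid.** -/
theorem result : ∀ (n : ℕ), 2 ≤ n → ∀ K : Set (E n), BodyC2 K → ∀ M : ℕ,
    (∀ ξ : E n, ‖ξ‖ = 1 → ∃ m : ℕ, 1 ≤ m ∧ m ≤ M ∧ PowerIsPolynomial K m ξ) →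
    ∃ (c : E n) (L : E n ≃L[ℝ] E n), K = solidEllipsoid c L ∧ frontier K = ellipsoid c L := by
  intro n hn K hK M h
  refine Pool.Agent.Y106.C2.main hn K hK.1 hK.2.1 hK.2.2.1 hK.2.2.2 M.factorial
    M.factorial_pos ?_
  intro ξ hξ
  obtain ⟨m, hm1, hm2, P, hP⟩ := h ξ hξ
  obtain ⟨j, hj⟩ := Nat.dvd_factorial hm1 hm2
  refine ⟨P ^ j, fun t ht => ?_⟩
  rw [hj, pow_mul, Polynomial.eval_pow, ← hP t ht]
  rfl

end Pool.Agent.Results.MP_376fb4_gt.ClassC2Boundary
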